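import Pool.Agent.H46.Ts6
import Pool.Agent.H46.TsD2

namespace Pool.Agent.Results.MP_0b6044_an.Norm

open Pool.Agent.H46.Ts

lemma eq_T {n : ℕ} {κ : Fin n → ℤ} {anti : Bool} {A : W n anti →L[ℂ] W n anti}
    (hA : IsProd κ A) : A = T κ anti := by
  ext u
  apply Subtype.ext
  apply Subtype.ext
  funext x
  exact (hA u x).trans (avg_apply κ _ x).symm

set_option maxHeartbeats 400000 in
theorem result (n : ℕ) (κ : Fin n → ℤ) (anti : Bool) :
    (∃ A : W n anti →L[ℂ] W n anti, IsProd κ A) ∧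
      ∀ A : W n anti →L[ℂ] W n anti, IsProd κ A → opNorm A = 1 := by
  refine ⟨⟨T κ anti, fun u x => avg_apply κ _ x⟩, fun A hA => ?_⟩
  obtain rfl := eq_T hA
  exact norm_T κ anti

end Pool.Agent.Results.MP_0b6044_an.Norm
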